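import Pool.Agent.H324.SQ.Main3

open Finset

namespace Pool.Agent.Results.MP_21fe07_nt.ErrorTerm

/-- Squarefree entries of Pascal's triangle, with an error term, uniformly in arithmetic
progressions of rows, and for all columns at once: there are absolute constants `C` and `c > 0`
such that for all `q ≥ 1` and `a` there is a summable sequence `ρ k ≥ 0` with `∑ ρ k ≥ 1 / q`
such that for all `N ≥ 1`

* `∑ k < N, |#{n < N : n ≡ a (mod q), 2k < n, C(n,k) squarefree} - ρ k * N|` and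
* `|#{(n,k) : n < N, n ≡ a (mod q), 0 ≤ k ≤ n, C(n,k) squarefree} - 2 (∑ ρ k) N|`

are at most `C N exp (-c (log N)^(1/3))`. -/
theorem result : ∃ C c : ℝ, 0 < c ∧ ∀ q : ℕ, 0 < q → ∀ a : ℕ, ∃ ρ : ℕ → ℝ,
    (∀ k, 0 ≤ ρ k) ∧ Summable ρ ∧ 1 / (q : ℝ) ≤ ∑' k, ρ k ∧ ∀ N : ℕ, 1 ≤ N →
    ∑ k ∈ range N, |(((range N).filter
        (fun n => n % q = a % q ∧ 2 * k < n ∧ Squarefree (n.choose k))).card : ℝ) - ρ k * N| ≤
      C * N * Real.exp (-(c * (Real.log N) ^ (1 / 3 : ℝ))) ∧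
    |((∑ n ∈ (range N).filter (fun n => n % q = a % q),
        ((range (n + 1)).filter (fun k => Squarefree (n.choose k))).card : ℕ) : ℝ) -
        2 * (∑' k, ρ k) * N| ≤ C * N * Real.exp (-(c * (Real.log N) ^ (1 / 3 : ℝ))) :=
  Pool.Agent.H324.SQ.main3

end Pool.Agent.Results.MP_21fe07_nt.ErrorTerm
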