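import Pool.Agent.Y795.SQF.Rate

/-!
# Squarefree entries of Pascal's triangle: limit distribution, error term and limit periodicity
-/

set_option autoImplicit false

open Finset Filter Topology

namespace Pool.Agent.Results.MP_21fe07_nt.LimitDistribution

open scoped Classical in
/-- `X n`: the number of squarefree entries in row `n` of Pascal's triangle. -/
noncomputable def X (n : ℕ) : ℕ := ((range (n + 1)).filter (fun k => Squarefree (n.choose k))).card

/-- The number `X n` of squarefree entries in row `n` of Pascal's triangle has a mean and a limit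
distribution, and it is limit periodic in the mean. In detail: there is `γ > 0` with
`S(N) ∼ γ N`, where `S(N) = ∑ n < N, X n` (the question of Granville and Ramaré), and even
`|S(N) - γ N| ≤ C N (log N) ^ (-η)` for some `C`, some `η > 0` and all large `N`; for every `j` the
set of the rows with exactly `j` squarefree entries has a natural density `d j`, with `∑ d j = 1`
and `∑ j * d j = γ`; for every `q > 0` and `a` the number of squarefree entries in the rows
`n < N` with `n ≡ a (mod q)` is asymptotic to a positive multiple of `N`; for all shifts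
`h 1, …, h m` and all `j 1, …, j m` the set of all `n` with `X (n + h i) = j i` for every `i` has a
natural density; for every `ε > 0` there is a periodic `f` with `∑ n < N, |X n - f n| ≤ ε N` for all
large `N`. -/
theorem result : ∃ (γ : ℝ) (d : ℕ → ℝ), 0 < γ ∧
    Tendsto (fun N : ℕ => ((∑ n ∈ range N, X n : ℕ) : ℝ) / (N : ℝ)) atTop (𝓝 γ) ∧
    (∃ η C : ℝ, 0 < η ∧ ∀ᶠ N : ℕ in atTop,
      |((∑ n ∈ range N, X n : ℕ) : ℝ) - γ * N| ≤ C * N * (Real.log N) ^ (-η)) ∧
    (∀ j, Tendsto (fun N : ℕ => (((range N).filter (fun n => X n = j)).card : ℝ) / (N : ℝ))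
      atTop (𝓝 (d j))) ∧
    HasSum d 1 ∧ HasSum (fun j : ℕ => (j : ℝ) * d j) γ ∧
    (∀ q a : ℕ, 0 < q → ∃ γ' : ℝ, 0 < γ' ∧ Tendsto (fun N : ℕ =>
      ((∑ n ∈ (range N).filter (fun n => n % q = a % q), X n : ℕ) : ℝ) / (N : ℝ))
      atTop (𝓝 γ')) ∧
    (∀ (m : ℕ) (h j : Fin m → ℕ), ∃ δ : ℝ, Tendsto (fun N : ℕ =>
      (((range N).filter (fun n => ∀ i, X (n + h i) = j i)).card : ℝ) / (N : ℝ))
      atTop (𝓝 δ)) ∧
    (∀ ε : ℝ, 0 < ε → ∃ (P : ℕ) (f : ℕ → ℕ), 0 < P ∧ (∀ n, f (n + P) = f n) ∧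
      ∀ᶠ N : ℕ in atTop, ∑ n ∈ range N, |(X n : ℝ) - (f n : ℝ)| ≤ ε * N) := by
  have hX : X = Pool.Agent.Y795.SQF.XX := by
    funext n
    unfold X Pool.Agent.Y795.SQF.XX
    congr!
  rw [hX]
  obtain ⟨γ, d, h1, h2, h3, h4⟩ := Pool.Agent.Y795.SQF.XX_limit_periodic.distribution
  obtain ⟨γ', hγ', h5⟩ := Pool.Agent.Y795.SQF.ap_pos 1 0 one_pos
  have h6 : γ = γ' := by
    refine tendsto_nhds_unique h1 ?_
    simpa [Nat.mod_one] using h5
  refine ⟨γ, d, h6 ▸ hγ', ?_, ?_, h2, h3, h4, ?_, ?_, ?_⟩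
  · push_cast
    exact h1
  · obtain ⟨η, C, hη, h7⟩ := Pool.Agent.Y795.SQF.rate γ h1
    refine ⟨η, C, hη, ?_⟩
    push_cast
    exact h7
  · intro q a hq
    obtain ⟨l, hl, h7⟩ := Pool.Agent.Y795.SQF.ap_pos q a hq
    refine ⟨l, hl, ?_⟩
    push_cast
    exact h7
  · intro m h j
    exact Pool.Agent.Y795.SQF.XX_limit_periodic.pattern_density m h j
  · exact Pool.Agent.Y795.SQF.XX_limit_periodic

end Pool.Agent.Results.MP_21fe07_nt.LimitDistribution
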